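import Pool.Agent.Helper35.PI.St2

/-!
# Project PI (MP_b2fa09_gt), module G2: first and second derivatives and the metric of a graph
-/

set_option autoImplicit false

namespace Helper90.PI

open Helper35.PI
open scoped ContDiff Topology BigOperators
open Filter

private lemma G2_slice {n : ℕ} {V : Type*} [NormedAddCommGroup V] [NormedSpace ℝ V]
    {φ : EE n × ℝ → V} {z : EE n × ℝ} (h : DifferentiableAt ℝ φ z) :
    HasFDerivAt (fun y => φ (y, z.2)) ((fderiv ℝ φ z).comp (ContinuousLinearMap.inl ℝ (EE n) ℝ)) z.1 := by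
  have h1 : HasFDerivAt φ (fderiv ℝ φ z) (z.1, z.2) := h.hasFDerivAt
  exact h1.comp z.1 (hasFDerivAt_prodMk_left z.1 z.2)

private lemma G2_slice_ev {n : ℕ} {z : EE n × ℝ} {p : EE n × ℝ → Prop} (h : ∀ᶠ z' in 𝓝 z, p z') :
    ∀ᶠ y in 𝓝 z.1, p (y, z.2) := by
  have hc : ContinuousAt (fun y : EE n => (y, z.2)) z.1 := by fun_prop
  exact hc.eventually h

private lemma G2_dv1 {n N : ℕ} (x₀ : EE N) (L : EE n →ₗᵢ[ℝ] EE N) {u : EE n × ℝ → EE N}
    {z : EE n × ℝ} (h : DifferentiableAt ℝ u z) (i : Fin n) :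
    dv1 (grf x₀ L u z.2) z.1 i = L (ee i) + jg u z i := by
  have h1 := G2_slice h
  have h2 : HasFDerivAt (fun x : EE n => x₀ + L x) L.toContinuousLinearMap z.1 :=
    (L.toContinuousLinearMap.hasFDerivAt).const_add x₀
  have h3 : HasFDerivAt (grf x₀ L u z.2)
      (L.toContinuousLinearMap + (fderiv ℝ u z).comp (ContinuousLinearMap.inl ℝ (EE n) ℝ)) z.1 :=
    h2.add h1
  unfold dv1
  rw [h3.fderiv]
  simp [jg]

/-- differentiation of an orthogonality relation -/
private lemma G2_perp {n N : ℕ} {φ : EE n × ℝ → EE N} {z : EE n × ℝ} (h : DifferentiableAt ℝ φ z)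
    (w : EE N) (hp : ∀ᶠ z' in 𝓝 z, (inner ℝ (φ z') w : ℝ) = 0) (k : Fin n) :
    (inner ℝ (jg φ z k) w : ℝ) = 0 := by
  have h1 : HasFDerivAt (fun z' => (inner ℝ (φ z') w : ℝ))
      ((innerSL ℝ w).comp (fderiv ℝ φ z)) z := by
    have h2 := (innerSL ℝ w).hasFDerivAt.comp z h.hasFDerivAt
    refine h2.congr_of_eventuallyEq (Eventually.of_forall fun z' => ?_)
    simp [real_inner_comm]
  have h3 : HasFDerivAt (fun _ : EE n × ℝ => (0 : ℝ)) (0 : (EE n × ℝ) →L[ℝ] ℝ) z :=
    hasFDerivAt_const 0 z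
  have h4 : HasFDerivAt (fun z' => (inner ℝ (φ z') w : ℝ)) (0 : (EE n × ℝ) →L[ℝ] ℝ) z :=
    h3.congr_of_eventuallyEq hp
  have h5 := h1.unique h4
  have h6 := congrArg (fun T => T (ee k, 0)) h5
  simp only [ContinuousLinearMap.comp_apply, innerSL_apply_apply, zero_apply] at h6
  rw [real_inner_comm]
  exact h6

private lemma G2_jg_diff {n N : ℕ} {u : EE n × ℝ → EE N} {z : EE n × ℝ} (h : ContDiffAt ℝ 5 u z)
    (j : Fin n) : DifferentiableAt ℝ (fun z' => jg u z' j) z := by
  have h1 : ContDiffAt ℝ 4 (fderiv ℝ u) z := h.fderiv_right (by norm_num)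
  have h2 : DifferentiableAt ℝ (fderiv ℝ u) z := h1.differentiableAt (by norm_num)
  exact h2.clm_apply (differentiableAt_const _)

theorem hG2 : StG2 := by
  intro n N x₀ L u t₀ hS
  have h5 : ∀ᶠ z in 𝓝 ((0 : EE n), t₀), ContDiffAt ℝ 5 u z := by
    have h : ContDiffAt ℝ 5 u (0, t₀) := hS.smooth.of_le (WithTop.coe_le_coe.2 le_top)
    exact h.eventually (by decide)
  have hperp := hS.perp
  filter_upwards [h5.eventually_nhds, hperp.eventually_nhds.eventually_nhds] with z hz hp
  have hz0 : ContDiffAt ℝ 5 u z := hz.self_of_nhds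
  have hd : DifferentiableAt ℝ u z := hz0.differentiableAt (by norm_num)
  have hd1 : ∀ i, dv1 (grf x₀ L u z.2) z.1 i = L (ee i) + jg u z i := fun i => G2_dv1 x₀ L hd i
  -- normality of the first derivatives, near z
  have hn1 : ∀ᶠ z' in 𝓝 z, ∀ i v, (inner ℝ (jg u z' i) (L v) : ℝ) = 0 := by
    filter_upwards [hz, hp] with z' hz' hp' i v
    refine G2_perp (hz'.differentiableAt (by norm_num)) (L v) ?_ i
    exact hp'.mono fun y hy => hy v
  have hn1z := hn1.self_of_nhds
  have hn2 : ∀ i j v, (inner ℝ (jgg u z i j) (L v) : ℝ) = 0 := by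
    intro i j v
    unfold jgg
    exact G2_perp (G2_jg_diff hz0 j) (L v) (hn1.mono fun z' h => h j v) i
  refine ⟨hd1, ?_, ?_, fun i j v => ⟨hn1z i v, hn2 i j v⟩, ?_⟩
  · intro i j
    unfold dv2 jgg
    have h1 : (fun y => fderiv ℝ (grf x₀ L u z.2) y (ee j)) =ᶠ[𝓝 z.1]
        fun y => L (ee j) + jg u (y, z.2) j := by
      filter_upwards [G2_slice_ev hz] with y hy
      exact G2_dv1 x₀ L (z := (y, z.2)) (hy.differentiableAt (by norm_num)) j
    rw [h1.fderiv_eq]
    have h2 := G2_slice (G2_jg_diff hz0 j)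
    have h3 : HasFDerivAt (fun y => L (ee j) + jg u (y, z.2) j)
        ((fderiv ℝ (fun z' => jg u z' j) z).comp (ContinuousLinearMap.inl ℝ (EE n) ℝ)) z.1 :=
      h2.const_add (L (ee j))
    rw [h3.fderiv]
    simp [jg]
  · intro i j
    unfold Gf gram
    rw [Matrix.of_apply, hd1 i, hd1 j, inner_add_left, inner_add_right, inner_add_right, L.inner_map_map,
      real_inner_comm (jg u z j) (L (ee i)), hn1z j (ee i), hn1z i (ee j)]
    have h1 : (inner ℝ (ee i : EE n) (ee j) : ℝ) = if i = j then 1 else 0 := by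
      unfold ee
      rw [EuclideanSpace.inner_single_left]
      simp
    rw [h1]
    ring
  · unfold LI
    rw [Fintype.linearIndependent_iff]
    intro c hc j
    have h1 : (inner ℝ (∑ i, c i • dv1 (grf x₀ L u z.2) z.1 i) (L (ee j)) : ℝ) = 0 := by
      rw [hc, inner_zero_left]
    rw [sum_inner] at h1
    have h2 : ∀ i, (inner ℝ (c i • dv1 (grf x₀ L u z.2) z.1 i) (L (ee j)) : ℝ)
        = if i = j then c i else 0 := by
      intro i
      rw [inner_smul_left, hd1 i, inner_add_left, hn1z i (ee j), L.inner_map_map]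
      unfold ee
      rw [EuclideanSpace.inner_single_left]
      by_cases h : i = j
      · subst h
        simp
      · simp [h]
    simp only [h2, Finset.sum_ite_eq', Finset.mem_univ, if_true] at h1
    exact h1

end Helper90.PI
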