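import Pool.Agent.Helper35.PI.St1

/-!
# Project PI (MP_b2fa09_gt), module OP3: a traceless symmetric scalar matrix acting on vectors
-/

set_option autoImplicit false

namespace Helper90.PI

open Helper35.PI
open scoped BigOperators

private lemma OP3_sq {n : ℕ} (x p : Fin n → ℝ) :
    ∑ i, ∑ j, (x i * p j + x j * p i) ^ 2
      = 2 * ((∑ i, x i ^ 2) * ∑ i, p i ^ 2) + 2 * (∑ i, x i * p i) ^ 2 := by
  have h1 : ∀ i j, (x i * p j + x j * p i) ^ 2
      = x i ^ 2 * p j ^ 2 + p i ^ 2 * x j ^ 2 + 2 * ((x i * p i) * (x j * p j)) := by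
    intro i j; ring
  simp only [h1, Finset.sum_add_distrib, ← Finset.mul_sum, ← Finset.sum_mul]
  ring

/-- the scalar case -/
private lemma OP3_scalar {n : ℕ} (hn : 2 ≤ n) (m : Fin n → Fin n → ℝ) (hs : ∀ i j, m i j = m j i)
    (ht : ∑ i, m i i = 0) (x : Fin n → ℝ) :
    ∑ j, (∑ k, m j k * x k) ^ 2
      ≤ ((n : ℝ) - 1) / n * (∑ i, ∑ j, m i j ^ 2) * ∑ k, x k ^ 2 := by
  have hn' : (0 : ℝ) < n := by exact_mod_cast (by omega : 0 < n)
  have hn2 : (2 : ℝ) ≤ n := by exact_mod_cast hn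
  set p : Fin n → ℝ := fun j => ∑ k, m j k * x k with hp
  set s : ℝ := ∑ i, x i * p i with hsdef
  set a : ℝ := ∑ k, x k ^ 2 with ha
  set b : ℝ := ∑ j, p j ^ 2 with hb
  set c : ℝ := ∑ i, ∑ j, m i j ^ 2 with hc
  have ha0 : 0 ≤ a := Finset.sum_nonneg fun i _ => sq_nonneg _
  have hb0 : 0 ≤ b := Finset.sum_nonneg fun i _ => sq_nonneg _
  have hc0 : 0 ≤ c := Finset.sum_nonneg fun i _ => Finset.sum_nonneg fun j _ => sq_nonneg _
  have hsab : s ^ 2 ≤ a * b := by
    rw [hsdef, ha, hb]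
    exact Finset.sum_mul_sq_le_sq_mul_sq _ _ _
  -- pairing with the test matrix
  have hpair : ∑ i, ∑ j, m i j * (x i * p j + x j * p i) = 2 * b := by
    have e1 : ∑ i, ∑ j, m i j * (x j * p i) = b := by
      rw [hb]
      refine Finset.sum_congr rfl fun i _ => ?_
      have e3 : p i ^ 2 = (∑ k, m i k * x k) * p i := by rw [pow_two]
      rw [e3, Finset.sum_mul]
      refine Finset.sum_congr rfl fun j _ => ?_
      ring
    have e2 : ∑ i, ∑ j, m i j * (x i * p j) = b := by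
      rw [Finset.sum_comm, ← e1]
      refine Finset.sum_congr rfl fun i _ => Finset.sum_congr rfl fun j _ => ?_
      rw [hs j i]
    calc ∑ i, ∑ j, m i j * (x i * p j + x j * p i)
        = ∑ i, ∑ j, m i j * (x i * p j) + ∑ i, ∑ j, m i j * (x j * p i) := by
          simp only [← Finset.sum_add_distrib, mul_add]
      _ = 2 * b := by rw [e1, e2]; ring
  -- square expansion for every real t
  have hexp : ∀ t : ℝ, 0 ≤ c - 2 * t * b + t ^ 2 * ((a * b) / 2 + (1 / 2 - 1 / n) * s ^ 2) := by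
    intro t
    have h0 : 0 ≤ ∑ i, ∑ j, (m i j - t * ((x i * p j + x j * p i) / 2 - if i = j then s / n else 0)) ^ 2 :=
      Finset.sum_nonneg fun i _ => Finset.sum_nonneg fun j _ => sq_nonneg _
    obtain ⟨g, hg⟩ : ∃ g : Fin n → ℝ, ∀ i, g i =
        2 * t * (s / n) * m i i - 2 * t ^ 2 * (s / n) * (x i * p i) + t ^ 2 * (s / n) ^ 2 := ⟨_, fun _ => rfl⟩
    have h1 : ∀ i j, (m i j - t * ((x i * p j + x j * p i) / 2 - if i = j then s / n else 0)) ^ 2
        = m i j ^ 2 + (-t) * (m i j * (x i * p j + x j * p i)) + (t ^ 2 / 4) * (x i * p j + x j * p i) ^ 2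
          + (if i = j then g i else 0) := by
      intro i j
      by_cases hij : i = j
      · subst hij
        simp only [if_true, hg]
        ring
      · simp only [if_neg hij]
        ring
    simp only [h1, Finset.sum_add_distrib, ← Finset.mul_sum, Finset.sum_ite_eq, Finset.mem_univ, if_true] at h0
    rw [hpair, OP3_sq, ← hc, ← ha, ← hb, ← hsdef] at h0
    have h2 : ∑ i : Fin n, g i = - t ^ 2 * s ^ 2 / n := by
      simp only [hg]
      rw [Finset.sum_add_distrib, Finset.sum_sub_distrib, ← Finset.mul_sum, ← Finset.mul_sum, ht, ← hsdef]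
      simp only [Finset.sum_const, Finset.card_univ, Fintype.card_fin, nsmul_eq_mul]
      field_simp
      ring
    rw [h2] at h0
    have h3 : c + -t * (2 * b) + t ^ 2 / 4 * (2 * (a * b) + 2 * s ^ 2) + - t ^ 2 * s ^ 2 / n
        = c - 2 * t * b + t ^ 2 * ((a * b) / 2 + (1 / 2 - 1 / n) * s ^ 2) := by
      field_simp
      ring
    linarith
  have hq : (a * b) / 2 + (1 / 2 - 1 / n) * s ^ 2 ≤ (1 - 1 / n) * (a * b) := by
    have h4 : (0 : ℝ) ≤ 1 / 2 - 1 / n := by
      rw [sub_nonneg, div_le_div_iff₀ hn' (by norm_num)]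
      linarith
    nlinarith [mul_le_mul_of_nonneg_left hsab h4]
  have hk : (1 : ℝ) - 1 / n = ((n : ℝ) - 1) / n := by field_simp
  rw [hk] at hq
  set κ : ℝ := ((n : ℝ) - 1) / n with hκ
  have hκ0 : 0 < κ := div_pos (by linarith) hn'
  have hexp2 : ∀ t : ℝ, 0 ≤ c - 2 * t * b + t ^ 2 * (κ * (a * b)) := fun t => by
    have := hexp t
    nlinarith [mul_le_mul_of_nonneg_left hq (sq_nonneg t)]
  -- conclude
  rcases eq_or_lt_of_le ha0 with h | h
  · have h5 := hexp2 (c + 1)
    rw [← h] at h5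
    rw [← h]
    by_contra hcon
    push Not at hcon
    have hb1 : 0 < b := by simpa using hcon
    have h6 := hexp2 ((c + 1) / b)
    rw [← h] at h6
    have h7 : (c + 1) / b * b = c + 1 := by field_simp
    nlinarith
  · have h8 := hexp2 (1 / (κ * a))
    have hka : 0 < κ * a := mul_pos hκ0 h
    have h9 : c - 2 * (1 / (κ * a)) * b + (1 / (κ * a)) ^ 2 * (κ * (a * b)) = c - b / (κ * a) := by
      field_simp
      ring
    rw [h9, sub_nonneg, div_le_iff₀ hka] at h8
    linarith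

theorem hOP3 : StOP3 := by
  intro n hn V _ _ m hs ht w
  let S : Submodule ℝ V := Submodule.span ℝ (Set.range w)
  have : FiniteDimensional ℝ S := FiniteDimensional.span_of_finite ℝ (Set.finite_range w)
  let e := stdOrthonormalBasis ℝ S
  let v : Fin n → S := fun k => ⟨w k, Submodule.subset_span (Set.mem_range_self k)⟩
  have key : ∀ a : Fin n → ℝ, ‖∑ k, a k • w k‖ ^ 2 = ∑ i, (∑ k, a k * e.repr (v k) i) ^ 2 := by
    intro a
    have h1 : ∑ k, a k • w k = ((∑ k, a k • v k : S) : V) := by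
      rw [Submodule.coe_sum]
      rfl
    rw [h1, ← Submodule.coe_norm, ← e.repr.norm_map, EuclideanSpace.real_norm_sq_eq]
    refine Finset.sum_congr rfl fun i _ => ?_
    congr 1
    rw [map_sum]
    simp only [map_smul]
    rw [WithLp.ofLp_sum, Finset.sum_apply]
    rfl
  have hw : ∀ k, ‖w k‖ ^ 2 = ∑ i, (e.repr (v k) i) ^ 2 := by
    intro k
    have h1 : w k = ((v k : S) : V) := rfl
    rw [h1, ← Submodule.coe_norm, ← e.repr.norm_map, EuclideanSpace.real_norm_sq_eq]
  calc ∑ j, ‖∑ k, m j k • w k‖ ^ 2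
      = ∑ j, ∑ i, (∑ k, m j k * e.repr (v k) i) ^ 2 := Finset.sum_congr rfl fun j _ => key _
    _ = ∑ i, ∑ j, (∑ k, m j k * e.repr (v k) i) ^ 2 := Finset.sum_comm
    _ ≤ ∑ i, ((n : ℝ) - 1) / n * (∑ i, ∑ j, m i j ^ 2) * ∑ k, (e.repr (v k) i) ^ 2 :=
        Finset.sum_le_sum fun i _ => OP3_scalar hn m hs ht fun k => e.repr (v k) i
    _ = ((n : ℝ) - 1) / n * (∑ i, ∑ j, m i j ^ 2) * ∑ k, ‖w k‖ ^ 2 := by
        rw [← Finset.mul_sum]
        congr 1
        rw [Finset.sum_comm]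
        exact Finset.sum_congr rfl fun k _ => (hw k).symm

end Helper90.PI
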